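import Pool.Agent.W927.Pat
import Pool.Agent.W927.Greedy2

/-!
For every `d ≥ 2` none of the conditions (i), (ii), (iii) are equivalent for subshifts of finite
type of `ℤ^d`.
-/

namespace Pool.Agent.Results.MP_6540cb_lc.NoEquivalence

open Pool.Agent.W927

/-- For `d ≥ 2` there is a subshift of finite type with a Baire measurable equivariant map from the
free part of `2^{ℤ^d}` but without measurable ones for some Borel probability measure (hence without
Borel ones), and there is a subshift of finite type with Baire measurable ones and with measurable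
ones for every Borel probability measure but without Borel ones. -/
theorem result (d : ℕ) (hd : 2 ≤ d) :
    (∃ (k : ℕ) (S : Set (Conf d (Fin k))),
      IsSFT S ∧ ¬ HasBorel S ∧ HasBaire S ∧ ¬ HasMeasure S) ∧
    (∃ (k : ℕ) (S : Set (Conf d (Fin k))),
      IsSFT S ∧ ¬ HasBorel S ∧ HasBaire S ∧ HasMeasure S) := by
  let e : Fin (Fintype.card Lab) ≃ Lab := (Fintype.equivFin Lab).symm
  let i0 : Fin d := ⟨0, by omega⟩
  let i1 : Fin d := ⟨1, by omega⟩
  have h01 : i0 ≠ i1 := by
    intro h
    have := congrArg Fin.val h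
    simp [i0, i1] at this
  refine ⟨⟨_, SA e (e_ i0) (e_ i1), isSFT_SA e _ _, SA_not_borel (e_ne i0) (e_ne i1),
    SA_hasBaire i0 i1 h01 e, SA_not_measure (e_ne i0) (e_ne i1)⟩,
    ⟨_, SB e (e_ i0) (e_ i1), isSFT_SB e _ _, SB_not_borel (e_ne i0) (e_ne i1), ?_,
    SB_hasMeasure h01 e⟩⟩
  obtain ⟨T, hT, hTm⟩ := SA_hasBaire i0 i1 h01 e
  exact ⟨T, ⟨fun x => SA_sub_SB (hT.mem x), hT.equivariant⟩, hTm⟩

end Pool.Agent.Results.MP_6540cb_lc.NoEquivalence
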